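import Pool.Graph.R_pool_sql_team_seeded_3997aac3.Q5.SH.Fin0
import Pool.Graph.R_pool_sql_team_seeded_3997aac3.Q5.SH.Top
import Pool.Graph.R_pool_sql_team_seeded_3997aac3.Q198.SH.LL
import Pool.Graph.R_pool_sql_team_seeded_3997aac3.Q198.SH.UT
import Pool.Graph.R_pool_sql_team_seeded_3997aac3.Q149.SH.BC
import Pool.Graph.R_pool_sql_team_seeded_3997aac3.Q238.SH.LT
import Pool.Graph.R_pool_sql_team_seeded_3997aac3.Q224.SH.BU
import Pool.Graph.R_pool_sql_team_seeded_3997aac3.Q224.SH.LEO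
import Pool.Graph.R_pool_sql_team_seeded_3997aac3.Q195.SH.BCM

/-!
# Assembly of the project SH of the library (helper5 and others, run 3997aac3): all its jobs together
-/

set_option autoImplicit false

namespace Pool.Agent.H674.SH

open NumberField IsDedekindDomain Module Pool.Agent.Y18.LC Pool.Agent.Q5.SG Pool.Agent.Q5.SH
open Pool.Agent.Q92.AR (Unramified)

theorem llD : S_LL := Pool.Agent.Q198.SH.ll Pool.Agent.Q238.SH.lt

theorem utD : S_UT := Pool.Agent.Q198.SH.ut llD Pool.Agent.Q149.SH.bc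

/-- Cyclic extensions of degree `p ^ m` without bad layers. -/
theorem mainD {p : ℕ} [Fact p.Prime] {K : Type} [Field K] [NumberField K]
    (hp : p ≠ 2) (hK : Unram K p) (S : Set (K →+* ℂ_[p]))
    (hS : PlaceClosed S) (hB : Big S) (m : ℕ) (hm : 1 ≤ m) (hmS : m = 1 ∨ ∃ τ : K →+* ℂ_[p], τ ∉ S)
    (B : Set (HeightOneSpectrum (𝓞 K))) (hBf : B.Finite) :
    ∃ T : Finset (HeightOneSpectrum (𝓞 K)), T.Nonempty ∧ (∀ v ∈ T, v ∉ B) ∧
    ∃ (H : Type) (_ : Field H) (_ : NumberField H) (_ : Algebra K H) (_ : IsGalois K H)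
      (g : H ≃ₐ[K] H), (∀ h : H ≃ₐ[K] H, h ∈ Subgroup.zpowers g) ∧ finrank K H = p ^ m ∧
      (∀ v : HeightOneSpectrum (𝓞 K), Unramified H v ↔ v ∉ T) ∧ Unram H p ∧
      ∀ j : ℕ, 1 ≤ j → j ≤ m → ¬ Bad S g 1 j :=
  Pool.Agent.Q5.SH.main t_ST utD Pool.Agent.Q224.SH.hc Pool.Agent.Q224.SH.hr t_CRIT hp hK S hS hB
    m hm hmS B hBf

end Pool.Agent.H674.SH
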