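import Pool.Agent.H674.SH.Inf
import Pool.Graph.R_seed8.W289.SL.LogEx

/-!
# The Leopoldt defect of an abelian extension, if Leopoldt's conjecture holds for the nontrivial
characters
-/

set_option autoImplicit false
set_option linter.all false

namespace Pool.Agent.H674.SH

open NumberField TensorProduct Pool.Agent.W289.SL

section gen

variable {G F V : Type} [CommGroup G] [Finite G] [Field F] [IsAlgClosed F] [CharZero F]
  [AddCommGroup V] [Module F V]

lemma sum_char_inv [Fintype (G →* Fˣ)] [HasEnoughRootsOfUnity F (Monoid.exponent G)] (g : G)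
    (hg : g ≠ 1) : ∑ χ : G →* Fˣ, (((χ g)⁻¹ : Fˣ) : F) = 0 := by
  obtain ⟨φ, hφ⟩ := CommGroup.exists_apply_ne_one_of_hasEnoughRootsOfUnity G F hg
  have h1 : ∑ χ : G →* Fˣ, (((χ g)⁻¹ : Fˣ) : F) =
      (((φ g)⁻¹ : Fˣ) : F) * ∑ χ : G →* Fˣ, (((χ g)⁻¹ : Fˣ) : F) := by
    rw [Finset.mul_sum]
    refine (Fintype.sum_equiv (Equiv.mulLeft φ) _ _ fun χ => ?_).symm
    rw [Equiv.coe_mulLeft, MonoidHom.mul_apply, mul_inv, Units.val_mul]
  have h2 : ((1 : F) - (((φ g)⁻¹ : Fˣ) : F)) * ∑ χ : G →* Fˣ, (((χ g)⁻¹ : Fˣ) : F) = 0 := by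
    rw [sub_mul, one_mul, ← h1, sub_self]
  refine (mul_eq_zero.1 h2).resolve_left fun h3 => hφ ?_
  have h4 : (((φ g)⁻¹ : Fˣ) : F) = ((1 : Fˣ) : F) := by
    rw [Units.val_one]
    exact (sub_eq_zero.1 h3).symm
  exact inv_eq_one.1 (Units.ext h4)

/-- If a subrepresentation has no vectors belonging to nontrivial characters, then it is trivial. -/
theorem invariant_of_chi (A : G →* Module.End F V) (W : Submodule F V)
    (hW : ∀ g, ∀ x ∈ W, A g x ∈ W)
    (h : ∀ χ : G →* Fˣ, χ ≠ 1 → ∀ x ∈ W, (∀ τ, A τ x = ((χ τ : Fˣ) : F) • x) → x = 0) :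
    ∀ x ∈ W, ∀ τ, A τ x = x := by
  classical
  have : Fintype G := Fintype.ofFinite G
  have : NeZero (Monoid.exponent G) := ⟨Monoid.exponent_ne_zero_of_finite⟩
  have : NeZero ((Monoid.exponent G : ℕ) : F) := ⟨by exact_mod_cast NeZero.ne (Monoid.exponent G)⟩
  have hE : HasEnoughRootsOfUnity F (Monoid.exponent G) := inferInstance
  have : Finite (G →* Fˣ) :=
    Finite.of_equiv G (CommGroup.monoidHom_mulEquiv_of_hasEnoughRootsOfUnity G F).some.toEquiv.symm
  have : Fintype (G →* Fˣ) := Fintype.ofFinite _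
  intro x hx
  let e : (G →* Fˣ) → V := fun χ => ∑ g, (((χ g)⁻¹ : Fˣ) : F) • A g x
  have he : ∀ χ τ, A τ (e χ) = ((χ τ : Fˣ) : F) • e χ := by
    intro χ τ
    show A τ (∑ g, (((χ g)⁻¹ : Fˣ) : F) • A g x) = ((χ τ : Fˣ) : F) • ∑ g, (((χ g)⁻¹ : Fˣ) : F) • A g x
    rw [map_sum, Finset.smul_sum]
    refine Fintype.sum_equiv (Equiv.mulLeft τ) _ _ fun g => ?_
    rw [map_smul, Equiv.coe_mulLeft, map_mul, smul_smul, ← Units.val_mul, map_mul, mul_inv,
      mul_inv_cancel_left, Module.End.mul_apply]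
  have heW : ∀ χ, e χ ∈ W := fun χ => Submodule.sum_mem _ fun g _ => W.smul_mem _ (hW g x hx)
  have he0 : ∀ χ, χ ≠ 1 → e χ = 0 := fun χ hχ => h χ hχ _ (heW χ) (he χ)
  have hsum : ∑ χ, e χ = (Fintype.card (G →* Fˣ) : F) • x := by
    show ∑ χ : G →* Fˣ, ∑ g, (((χ g)⁻¹ : Fˣ) : F) • A g x = _
    rw [Finset.sum_comm]
    rw [Finset.sum_eq_single (1 : G)]
    · simp only [map_one, inv_one, Units.val_one, one_smul, Module.End.one_apply, Finset.sum_const,
        Finset.card_univ]
      rw [Nat.cast_smul_eq_nsmul]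
    · intro g _ hg
      rw [← Finset.sum_smul, sum_char_inv g hg, zero_smul]
    · intro h1
      exact absurd (Finset.mem_univ _) h1
  have h1 : ∑ χ, e χ = e 1 := Finset.sum_eq_single 1 (fun χ _ hχ => he0 χ hχ) fun h2 =>
    absurd (Finset.mem_univ _) h2
  have hc : (Fintype.card (G →* Fˣ) : F) ≠ 0 := by exact_mod_cast Fintype.card_ne_zero
  intro τ
  have h2 : A τ ((Fintype.card (G →* Fˣ) : F) • x) = (Fintype.card (G →* Fˣ) : F) • x := by
    rw [← hsum, h1, he, MonoidHom.one_apply, Units.val_one, one_smul]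
  rw [map_smul] at h2
  exact smul_right_injective V hc h2

end gen

section defect

variable (p : ℕ) [Fact p.Prime]

/-- the elements all whose logarithms are zero -/
noncomputable def LeoKer (E : Type) [Field E] [NumberField E] : Submodule ℂ_[p] (UM p E) where
  carrier := {x | ∀ (L : ℂ_[p] → ℂ_[p]) (hL : IsIwasawaLog p L) (σ : E →+* ℂ_[p]), logLin hL σ x = 0}
  add_mem' {x y} hx hy L hL σ := by rw [map_add, hx L hL σ, hy L hL σ, add_zero]
  zero_mem' L hL σ := map_zero _
  smul_mem' c x hx L hL σ := by rw [map_smul, hx L hL σ, smul_zero]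

/-- the Leopoldt defect -/
noncomputable def defect (E : Type) [Field E] [NumberField E] : ℕ :=
  Module.finrank ℂ_[p] (LeoKer p E)

variable {p} {K H : Type} [Field K] [NumberField K] [Field H] [NumberField H] [Algebra K H]
  [IsGalois K H]

/-- the action as a homomorphism -/
noncomputable def actHom : (H ≃ₐ[K] H) →* Module.End ℂ_[p] (UM p H) where
  toFun τ := actLin p (τ : H →+* H)
  map_one' := by
    apply LinearMap.ext
    intro x
    induction x using TensorProduct.induction_on with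
    | zero => simp only [map_zero]
    | tmul a u => rfl
    | add x y hx hy => simp only [map_add, hx, hy]
  map_mul' a b := by
    apply LinearMap.ext
    intro x
    induction x using TensorProduct.induction_on with
    | zero => simp only [map_zero]
    | tmul a u => rfl
    | add x y hx hy => simp only [map_add, hx, hy]

theorem exists_extend (σ' : K →+* ℂ_[p]) :
    ∃ σ : H →+* ℂ_[p], σ.comp (algebraMap K H) = σ' := by
  letI : Algebra K ℂ_[p] := σ'.toAlgebra
  have hfin : FiniteDimensional K H := Module.Finite.of_restrictScalars_finite ℚ K H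
  have halg : Algebra.IsAlgebraic K H := inferInstance
  let σ : H →ₐ[K] ℂ_[p] := IsAlgClosed.lift
  exact ⟨σ, σ.comp_algebraMap⟩

/-- If the Leopoldt statement holds for all nontrivial characters of an abelian extension `H / K`,
then the Leopoldt defects of `H` and `K` are equal. -/
theorem defect_eq (hcomm : ∀ a b : H ≃ₐ[K] H, a * b = b * a)
    (h : ∀ χ : (H ≃ₐ[K] H) →* ℂ_[p]ˣ, χ ≠ 1 → SigmaLeopoldt p K H Set.univ χ) :
    defect p H = defect p K := by
  classical
  have hfin : FiniteDimensional K H := Module.Finite.of_restrictScalars_finite ℚ K H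
  obtain ⟨L₀, hL₀⟩ := exists_iwasawaLog p
  letI : CommGroup (H ≃ₐ[K] H) := { (inferInstance : Group (H ≃ₐ[K] H)) with mul_comm := hcomm }
  have hinv : ∀ x ∈ LeoKer p H, ∀ τ : H ≃ₐ[K] H, actHom (p := p) τ x = x := by
    refine invariant_of_chi (actHom (p := p) (K := K) (H := H)) (LeoKer p H) ?_ ?_
    · intro g x hx L hL σ
      show logLin hL σ (actLin p (g : H →+* H) x) = 0
      rw [logLin_actLin]
      exact hx L hL _
    · intro χ hχ x hx hτ
      exact h χ hχ L₀ hL₀ x hτ fun σ _ => hx L₀ hL₀ σ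
  let ι : UM p K →ₗ[ℂ_[p]] UM p H := mapL p (algebraMap (𝓞 K) (𝓞 H) : 𝓞 K →* 𝓞 H)
  let ν : UM p H →ₗ[ℂ_[p]] UM p K := mapL p (RingOfIntegers.norm K : 𝓞 H →* 𝓞 K)
  have hn : (Module.finrank K H : ℂ_[p]) ≠ 0 := by exact_mod_cast Module.finrank_pos.ne'
  have h1 : ∀ y, ν (ι y) = (Module.finrank K H : ℂ_[p]) • y := fun y => norm_alg_lin y
  have h2 : ∀ x ∈ LeoKer p H, ι (ν x) = (Module.finrank K H : ℂ_[p]) • x := by
    intro x hx
    have h3 : ι (ν x) = ∑ n : H ≃ₐ[K] H, actLin p (n : H →+* H) x := alg_norm_lin K x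
    have h5 : ∑ n : H ≃ₐ[K] H, actLin p (n : H →+* H) x = ∑ n : H ≃ₐ[K] H, x :=
      Finset.sum_congr rfl fun n _ => hinv x hx n
    rw [h3, h5, Finset.sum_const, Finset.card_univ,
      ← Nat.card_eq_fintype_card, IsGalois.card_aut_eq_finrank, Nat.cast_smul_eq_nsmul]
  have hι : ∀ y ∈ LeoKer p K, ι y ∈ LeoKer p H := by
    intro y hy L hL σ
    show logLin hL σ (mapL p (algebraMap (𝓞 K) (𝓞 H) : 𝓞 K →* 𝓞 H) y) = 0
    rw [logLin_mapL]
    exact hy L hL _
  have hν : ∀ x ∈ LeoKer p H, ν x ∈ LeoKer p K := by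
    intro x hx L hL σ'
    obtain ⟨σ, hσ⟩ := exists_extend (K := K) (H := H) σ'
    rw [← hσ, ← logLin_mapL]
    show logLin hL σ (ι (ν x)) = 0
    rw [h2 x hx, map_smul, hx L hL σ, smul_zero]
  let f : LeoKer p K →ₗ[ℂ_[p]] LeoKer p H := ι.restrict hι
  have hf : Function.Bijective f := by
    constructor
    · intro y y' hyy
      apply Subtype.ext
      have h3 : ι (y : UM p K) = ι (y' : UM p K) := congrArg Subtype.val hyy
      have h4 := congrArg ν h3
      rw [h1, h1] at h4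
      exact smul_right_injective _ hn h4
    · intro x
      refine ⟨(Module.finrank K H : ℂ_[p])⁻¹ • ⟨ν x, hν x x.2⟩, ?_⟩
      apply Subtype.ext
      show ι ((Module.finrank K H : ℂ_[p])⁻¹ • ν (x : UM p H)) = x
      rw [map_smul, h2 x x.2, smul_smul, inv_mul_cancel₀ hn, one_smul]
  exact (LinearEquiv.finrank_eq (LinearEquiv.ofBijective f hf)).symm

end defect

end Pool.Agent.H674.SH
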