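import Pool.Agent.H674.SH.All

/-!
# Cyclic extensions of CM fields all of whose nontrivial characters satisfy the `Σ`-Leopoldt conjecture
-/

set_option autoImplicit false

namespace Pool.Agent.H674.SH

open NumberField IsDedekindDomain Module Pool.Agent.Y18.LC Pool.Agent.Q5.SG Pool.Agent.Q5.SH
open Pool.Agent.Q92.AR (Unramified)
open Pool.Agent.W289.SL (SigmaLeopoldt IsCMType)

/-- The conjecture for all layers, for general sets of embeddings. -/
theorem layers {p : ℕ} [Fact p.Prime] (hp : p ≠ 2) {K : Type} [Field K] [NumberField K]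
    (hK : Unram K p) (S : Set (K →+* ℂ_[p])) (hS : PlaceClosed S) (hB : Big S) (m : ℕ) (hm : 1 ≤ m)
    (hmS : m = 1 ∨ ∃ τ : K →+* ℂ_[p], τ ∉ S)
    (B : Set (HeightOneSpectrum (𝓞 K))) (hBf : B.Finite) :
    ∃ T : Finset (HeightOneSpectrum (𝓞 K)), T.Nonempty ∧ (∀ v ∈ T, v ∉ B) ∧
    ∃ (H : Type) (_ : Field H) (_ : NumberField H) (_ : Algebra K H) (_ : IsGalois K H)
      (_ : IsCyclic (H ≃ₐ[K] H)), finrank K H = p ^ m ∧
      (∀ v : HeightOneSpectrum (𝓞 K), Unramified H v ↔ v ∉ T) ∧ Unram H p ∧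
      ∀ (E : IntermediateField K H) (χ : (E ≃ₐ[K] E) →* ℂ_[p]ˣ), χ ≠ 1 → Function.Injective χ →
        SigmaLeopoldt p K E S χ := by
  obtain ⟨T, hT1, hT2, H, i1, i2, i3, i4, g, hg, hd, hr, hH, hbad⟩ :=
    mainD hp hK S hS hB m hm hmS B hBf
  have hcyc : IsCyclic (H ≃ₐ[K] H) := ⟨g, hg⟩
  refine ⟨T, hT1, hT2, H, i1, i2, i3, i4, hcyc, hd, hr, hH, fun E χ hχ1 hχ => ?_⟩
  have hfin : FiniteDimensional K H := Module.Finite.of_restrictScalars_finite ℚ K H
  have h1 : finrank K E ∣ p ^ m := by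
    rw [← hd]
    exact ⟨finrank E H, (finrank_mul_finrank K E H).symm⟩
  obtain ⟨j, hj, hE⟩ := (Nat.dvd_prime_pow (Fact.out : p.Prime)).1 h1
  have hj1 : 1 ≤ j := by
    by_contra hcon
    have hj0 : j = 0 := by omega
    rw [hj0, pow_zero] at hE
    apply hχ1
    ext a
    have h2 : a = 1 := by
      have h3 : E = ⊥ := IntermediateField.finrank_eq_one_iff.1 hE
      subst h3
      ext x
      obtain ⟨y, hy⟩ := IntermediateField.mem_bot.1 x.2
      have h4 : x = algebraMap K (⊥ : IntermediateField K H) y := Subtype.ext hy.symm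
      rw [h4, a.commutes, AlgEquiv.one_apply]
    rw [h2, map_one, map_one]
  exact layerHolds_of_not_bad hp hH S hS g hg m 1 hd j hj1 hj (hbad j hj1 hj) E hE χ hχ

end Pool.Agent.H674.SH
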