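import Pool.Agent.H674.SH.Def
import Pool.Agent.H674.SH.Sig

/-!
# The defect for a set of embeddings
-/

set_option autoImplicit false
set_option linter.all false

namespace Pool.Agent.H674.SH

open NumberField TensorProduct Pool.Agent.W289.SL

section defect

variable (p : ℕ) [Fact p.Prime] {K : Type} [Field K]

/-- the elements all whose logarithms above `S` are zero -/
noncomputable def LeoKerS (E : Type) [Field E] [NumberField E] [Algebra K E]
    (S : Set (K →+* ℂ_[p])) : Submodule ℂ_[p] (UM p E) where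
  carrier := {x | ∀ (L : ℂ_[p] → ℂ_[p]) (hL : IsIwasawaLog p L) (σ : E →+* ℂ_[p]),
    σ.comp (algebraMap K E) ∈ S → logLin hL σ x = 0}
  add_mem' {x y} hx hy L hL σ hσ := by rw [map_add, hx L hL σ hσ, hy L hL σ hσ, add_zero]
  zero_mem' L hL σ hσ := map_zero _
  smul_mem' c x hx L hL σ hσ := by rw [map_smul, hx L hL σ hσ, smul_zero]

variable {p} [NumberField K] {H : Type} [Field H] [NumberField H] [Algebra K H] [IsGalois K H]

/-- If the statement holds for all nontrivial characters of an abelian extension `H / K`, then the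
defects of `H` and `K` are equal. -/
theorem defectS_eq (hcomm : ∀ a b : H ≃ₐ[K] H, a * b = b * a) (S : Set (K →+* ℂ_[p]))
    (h : ∀ χ : (H ≃ₐ[K] H) →* ℂ_[p]ˣ, χ ≠ 1 → SigmaLeopoldt p K H S χ) :
    Module.finrank ℂ_[p] (LeoKerS p H S) = Module.finrank ℂ_[p] (LeoKerS p K S) := by
  classical
  have hfin : FiniteDimensional K H := Module.Finite.of_restrictScalars_finite ℚ K H
  obtain ⟨L₀, hL₀⟩ := exists_iwasawaLog p
  letI : CommGroup (H ≃ₐ[K] H) := { (inferInstance : Group (H ≃ₐ[K] H)) with mul_comm := hcomm }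
  have hinv : ∀ x ∈ LeoKerS p H S, ∀ τ : H ≃ₐ[K] H, actHom (p := p) τ x = x := by
    refine invariant_of_chi (actHom (p := p) (K := K) (H := H)) (LeoKerS p H S) ?_ ?_
    · intro g x hx L hL σ hσ
      show logLin hL σ (actLin p (g : H →+* H) x) = 0
      rw [logLin_actLin]
      refine hx L hL _ ?_
      have h2 : (σ.comp (g : H →+* H)).comp (algebraMap K H) = σ.comp (algebraMap K H) := by
        ext z
        show σ (g (algebraMap K H z)) = σ (algebraMap K H z)
        rw [g.commutes]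
      rw [h2]
      exact hσ
    · intro χ hχ x hx hτ
      exact h χ hχ L₀ hL₀ x hτ fun σ hσ => hx L₀ hL₀ σ hσ
  let ι : UM p K →ₗ[ℂ_[p]] UM p H := mapL p (algebraMap (𝓞 K) (𝓞 H) : 𝓞 K →* 𝓞 H)
  let ν : UM p H →ₗ[ℂ_[p]] UM p K := mapL p (RingOfIntegers.norm K : 𝓞 H →* 𝓞 K)
  have hn : (Module.finrank K H : ℂ_[p]) ≠ 0 := by exact_mod_cast Module.finrank_pos.ne'
  have h1 : ∀ y, ν (ι y) = (Module.finrank K H : ℂ_[p]) • y := fun y => norm_alg_lin y
  have h2 : ∀ x ∈ LeoKerS p H S, ι (ν x) = (Module.finrank K H : ℂ_[p]) • x := by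
    intro x hx
    have h3 : ι (ν x) = ∑ n : H ≃ₐ[K] H, actLin p (n : H →+* H) x := alg_norm_lin K x
    have h5 : ∑ n : H ≃ₐ[K] H, actLin p (n : H →+* H) x = ∑ n : H ≃ₐ[K] H, x :=
      Finset.sum_congr rfl fun n _ => hinv x hx n
    rw [h3, h5, Finset.sum_const, Finset.card_univ,
      ← Nat.card_eq_fintype_card, IsGalois.card_aut_eq_finrank, Nat.cast_smul_eq_nsmul]
  have hι : ∀ y ∈ LeoKerS p K S, ι y ∈ LeoKerS p H S := by
    intro y hy L hL σ hσ
    show logLin hL σ (mapL p (algebraMap (𝓞 K) (𝓞 H) : 𝓞 K →* 𝓞 H) y) = 0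
    rw [logLin_mapL]
    exact hy L hL _ hσ
  have hν : ∀ x ∈ LeoKerS p H S, ν x ∈ LeoKerS p K S := by
    intro x hx L hL σ' hσ'
    obtain ⟨σ, hσ⟩ := exists_extend (K := K) (H := H) σ'
    rw [← hσ, ← logLin_mapL]
    show logLin hL σ (ι (ν x)) = 0
    have h3 : σ.comp (algebraMap K H) ∈ S := by
      rw [hσ]
      exact hσ'
    rw [h2 x hx, map_smul, hx L hL σ h3, smul_zero]
  let f : LeoKerS p K S →ₗ[ℂ_[p]] LeoKerS p H S := ι.restrict hι
  have hf : Function.Bijective f := by
    constructor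
    · intro y y' hyy
      apply Subtype.ext
      have h3 : ι (y : UM p K) = ι (y' : UM p K) := congrArg Subtype.val hyy
      have h4 := congrArg ν h3
      rw [h1, h1] at h4
      exact smul_right_injective _ hn h4
    · intro x
      refine ⟨(Module.finrank K H : ℂ_[p])⁻¹ • ⟨ν x, hν x x.2⟩, ?_⟩
      apply Subtype.ext
      show ι ((Module.finrank K H : ℂ_[p])⁻¹ • ν (x : UM p H)) = x
      rw [map_smul, h2 x x.2, smul_smul, inv_mul_cancel₀ hn, one_smul]
  exact (LinearEquiv.finrank_eq (LinearEquiv.ofBijective f hf)).symm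

end defect

end Pool.Agent.H674.SH
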