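import Pool.Graph.R_seed8.W289.SL.Defs

/-!
# From faithful characters of the layers to all characters of a Galois group
-/

set_option autoImplicit false
set_option linter.all false

namespace Pool.Agent.H674.SH

open NumberField TensorProduct Pool.Agent.W289.SL

section maps

variable {p : ℕ} [Fact p.Prime] {H E : Type} [Field H] [NumberField H] [Field E] [NumberField E]

/-- the map on units induced by a multiplicative map of rings of integers, written additively -/
noncomputable def mapA (f : 𝓞 H →* 𝓞 E) : Additive (𝓞 H)ˣ →+ Additive (𝓞 E)ˣ :=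
  MonoidHom.toAdditive (Units.map f)

variable (p) in
/-- the linear extension -/
noncomputable def mapL (f : 𝓞 H →* 𝓞 E) : UM p H →ₗ[ℂ_[p]] UM p E :=
  (mapA f).toIntLinearMap.baseChange ℂ_[p]

lemma mapL_tmul (f : 𝓞 H →* 𝓞 E) (a : ℂ_[p]) (u : Additive (𝓞 H)ˣ) :
    mapL p f (a ⊗ₜ u) = a ⊗ₜ mapA f u := rfl

lemma actLin_tmul (f : H →+* H) (a : ℂ_[p]) (u : Additive (𝓞 H)ˣ) :
    actLin p f (a ⊗ₜ u) = a ⊗ₜ unitHom f u := rfl

lemma logLin_tmul {L : ℂ_[p] → ℂ_[p]} (hL : IsIwasawaLog p L) (σ : H →+* ℂ_[p]) (a : ℂ_[p])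
    (u : Additive (𝓞 H)ˣ) : logLin hL σ (a ⊗ₜ u) = a * logHom hL σ u := by
  unfold logLin
  rw [LinearMap.liftBaseChange_tmul, smul_eq_mul]
  rfl

lemma logLin_actLin {L : ℂ_[p] → ℂ_[p]} (hL : IsIwasawaLog p L) (σ : H →+* ℂ_[p]) (f : H →+* H)
    (x : UM p H) : logLin hL σ (actLin p f x) = logLin hL (σ.comp f) x := by
  induction x using TensorProduct.induction_on with
  | zero => simp only [map_zero]
  | tmul a u =>
    rw [actLin_tmul, logLin_tmul, logLin_tmul]
    rfl
  | add x y hx hy => simp only [map_add, hx, hy]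

lemma logLin_mapL {L : ℂ_[p] → ℂ_[p]} (hL : IsIwasawaLog p L) [Algebra E H] (σ : H →+* ℂ_[p])
    (y : UM p E) : logLin hL σ (mapL p (algebraMap (𝓞 E) (𝓞 H) : 𝓞 E →* 𝓞 H) y) =
      logLin hL (σ.comp (algebraMap E H)) y := by
  induction y using TensorProduct.induction_on with
  | zero => simp only [map_zero]
  | tmul a u =>
    rw [mapL_tmul, logLin_tmul, logLin_tmul]
    rfl
  | add x y hx hy => simp only [map_add, hx, hy]

end maps

section norm

variable {p : ℕ} [Fact p.Prime] {E H : Type} [Field E] [NumberField E] [Field H] [NumberField H]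
  [Algebra E H] [FiniteDimensional E H] [IsGalois E H]

lemma alg_norm (u : Additive (𝓞 H)ˣ) :
    mapA (algebraMap (𝓞 E) (𝓞 H) : 𝓞 E →* 𝓞 H) (mapA (RingOfIntegers.norm E : 𝓞 H →* 𝓞 E) u) =
      ∑ n : H ≃ₐ[E] H, unitHom (n : H →+* H) u := by
  apply Additive.toMul.injective
  rw [toMul_sum]
  apply Units.ext
  apply RingOfIntegers.ext
  rw [Units.coe_prod]
  show algebraMap E H (Algebra.norm E (((Additive.toMul u : (𝓞 H)ˣ) : 𝓞 H) : H)) =
    algebraMap (𝓞 H) H (∏ n : H ≃ₐ[E] H, ((Additive.toMul (unitHom (n : H →+* H) u) : (𝓞 H)ˣ) : 𝓞 H))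
  rw [map_prod]
  exact Algebra.norm_eq_prod_automorphisms E (((Additive.toMul u : (𝓞 H)ˣ) : 𝓞 H) : H)

variable (E) in
lemma alg_norm_lin (x : UM p H) :
    mapL p (algebraMap (𝓞 E) (𝓞 H) : 𝓞 E →* 𝓞 H) (mapL p (RingOfIntegers.norm E : 𝓞 H →* 𝓞 E) x) =
      ∑ n : H ≃ₐ[E] H, actLin p (n : H →+* H) x := by
  induction x using TensorProduct.induction_on with
  | zero => simp only [map_zero, Finset.sum_const_zero]
  | tmul a u =>
    rw [mapL_tmul, mapL_tmul, alg_norm, TensorProduct.tmul_sum]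
    rfl
  | add x y hx hy => simp only [map_add, hx, hy, Finset.sum_add_distrib]

lemma norm_alg_lin (y : UM p E) :
    mapL p (RingOfIntegers.norm E : 𝓞 H →* 𝓞 E) (mapL p (algebraMap (𝓞 E) (𝓞 H) : 𝓞 E →* 𝓞 H) y) =
      (Module.finrank E H : ℂ_[p]) • y := by
  induction y using TensorProduct.induction_on with
  | zero => simp only [map_zero, smul_zero]
  | tmul a u =>
    have h0 : mapA (RingOfIntegers.norm E : 𝓞 H →* 𝓞 E)
        (mapA (algebraMap (𝓞 E) (𝓞 H) : 𝓞 E →* 𝓞 H) u) = Module.finrank E H • u := by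
      apply Additive.toMul.injective
      rw [toMul_nsmul]
      apply Units.ext
      apply RingOfIntegers.ext
      rw [Units.val_pow_eq_pow_val]
      have h1 := Algebra.norm_algebraMap (S := H) (((Additive.toMul u : (𝓞 E)ˣ) : 𝓞 E) : E)
      refine h1.trans ?_
      exact (map_pow (algebraMap (𝓞 E) E) _ _).symm
    rw [mapL_tmul, mapL_tmul, h0, Nat.cast_smul_eq_nsmul]
    exact map_nsmul (TensorProduct.mk ℤ ℂ_[p] (Additive (𝓞 E)ˣ) a) _ _
  | add x y hx hy => simp only [map_add, hx, hy, smul_add]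

end norm

section inflate

variable {p : ℕ} [Fact p.Prime] {K H : Type} [Field K] [NumberField K] [Field H] [NumberField H]
  [Algebra K H] [IsGalois K H]

lemma norm_act (hcomm : ∀ a b : H ≃ₐ[K] H, a * b = b * a) (E : IntermediateField K H)
    [FiniteDimensional E H] [IsGalois E H] [Normal K E] (τ : H ≃ₐ[K] H) (u : Additive (𝓞 H)ˣ) :
    unitHom ((AlgEquiv.restrictNormalHom E τ : E ≃ₐ[K] E) : E →+* E)
      (mapA (RingOfIntegers.norm E : 𝓞 H →* 𝓞 E) u) =
    mapA (RingOfIntegers.norm E : 𝓞 H →* 𝓞 E) (unitHom (τ : H →+* H) u) := by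
  apply Additive.toMul.injective
  apply Units.ext
  apply RingOfIntegers.ext
  apply (algebraMap E H).injective
  show algebraMap E H (AlgEquiv.restrictNormalHom E τ
      (Algebra.norm E (((Additive.toMul u : (𝓞 H)ˣ) : 𝓞 H) : H))) =
    algebraMap E H (Algebra.norm E (τ (((Additive.toMul u : (𝓞 H)ˣ) : 𝓞 H) : H)))
  have h1 : ∀ z : E, algebraMap E H (AlgEquiv.restrictNormalHom E τ z) = τ (algebraMap E H z) :=
    fun z => AlgEquiv.restrictNormal_commutes τ E z
  rw [h1, Algebra.norm_eq_prod_automorphisms, Algebra.norm_eq_prod_automorphisms, map_prod]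
  refine Finset.prod_congr rfl fun n _ => ?_
  have h2 := DFunLike.congr_fun (hcomm τ (n.restrictScalars K))
    (((Additive.toMul u : (𝓞 H)ˣ) : 𝓞 H) : H)
  exact h2

lemma norm_act_lin (hcomm : ∀ a b : H ≃ₐ[K] H, a * b = b * a) (E : IntermediateField K H)
    [FiniteDimensional E H] [IsGalois E H] [Normal K E] (τ : H ≃ₐ[K] H) (x : UM p H) :
    actLin p ((AlgEquiv.restrictNormalHom E τ : E ≃ₐ[K] E) : E →+* E)
      (mapL p (RingOfIntegers.norm E : 𝓞 H →* 𝓞 E) x) =
    mapL p (RingOfIntegers.norm E : 𝓞 H →* 𝓞 E) (actLin p (τ : H →+* H) x) := by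
  induction x using TensorProduct.induction_on with
  | zero => simp only [map_zero]
  | tmul a u =>
    rw [mapL_tmul, actLin_tmul, actLin_tmul, mapL_tmul, norm_act hcomm]
  | add x y hx hy => simp only [map_add, hx, hy]

/-- If the `S`-Leopoldt statement holds for the faithful nontrivial characters of all the layers of an
abelian extension, then it holds for all nontrivial characters. -/
theorem inflate (hcomm : ∀ a b : H ≃ₐ[K] H, a * b = b * a) (S : Set (K →+* ℂ_[p]))
    (h : ∀ (E : IntermediateField K H) (ψ : (E ≃ₐ[K] E) →* ℂ_[p]ˣ), ψ ≠ 1 →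
      Function.Injective ψ → SigmaLeopoldt p K E S ψ)
    (χ : (H ≃ₐ[K] H) →* ℂ_[p]ˣ) (hχ : χ ≠ 1) : SigmaLeopoldt p K H S χ := by
  classical
  have hfinK : FiniteDimensional K H := Module.Finite.of_restrictScalars_finite ℚ K H
  let E : IntermediateField K H := IntermediateField.fixedField χ.ker
  have hGE : IsGalois K E := IsGalois.of_fixedField_normal_subgroup χ.ker
  have hfinE : FiniteDimensional E H := inferInstance
  have hGH : IsGalois E H := inferInstance
  let e := IsGalois.normalAutEquivQuotient χ.ker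
  let ψ : (E ≃ₐ[K] E) →* ℂ_[p]ˣ := (QuotientGroup.kerLift χ).comp e.symm.toMonoidHom
  have hψ : ∀ τ : H ≃ₐ[K] H, ψ (AlgEquiv.restrictNormalHom E τ) = χ τ := by
    intro τ
    have h1 : e ((τ : H ≃ₐ[K] H) : (H ≃ₐ[K] H) ⧸ χ.ker) = AlgEquiv.restrictNormalHom E τ :=
      IsGalois.normalAutEquivQuotient_apply χ.ker τ
    show QuotientGroup.kerLift χ (e.symm (AlgEquiv.restrictNormalHom E τ)) = χ τ
    rw [← h1, MulEquiv.symm_apply_apply]
    rfl
  have hinj : Function.Injective ψ :=
    (QuotientGroup.kerLift_injective χ).comp e.symm.injective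
  have hψ1 : ψ ≠ 1 := by
    intro h1
    apply hχ
    ext τ
    rw [← hψ τ, h1]
    rfl
  intro L hL x hx h0
  set y : UM p E := mapL p (RingOfIntegers.norm E : 𝓞 H →* 𝓞 E) x with hy
  have hsum := alg_norm_lin (p := p) E x
  have hn : ∀ n : H ≃ₐ[E] H, actLin p (n : H →+* H) x = x := by
    intro n
    have h1 : n.restrictScalars K ∈ χ.ker := by
      rw [← IntermediateField.fixingSubgroup_fixedField χ.ker]
      intro z
      exact n.commutes z
    have h2 := hx (n.restrictScalars K)
    rw [MonoidHom.mem_ker.1 h1, Units.val_one, one_smul] at h2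
    exact h2
  have hy0 : y = 0 := by
    refine h E ψ hψ1 hinj L hL y ?_ ?_
    · intro τ'
      obtain ⟨τ, rfl⟩ := AlgEquiv.restrictNormalHom_surjective H (K₁ := E) τ'
      rw [hψ, hy, norm_act_lin hcomm, hx τ, map_smul]
    · intro σ' hσ'
      letI : Algebra E ℂ_[p] := σ'.toAlgebra
      have halg : Algebra.IsAlgebraic E H := inferInstance
      let σ : H →ₐ[E] ℂ_[p] := IsAlgClosed.lift
      have hσ : (σ : H →+* ℂ_[p]).comp (algebraMap E H) = σ' := σ.comp_algebraMap
      rw [← hσ, ← logLin_mapL, hy, hsum, map_sum]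
      refine Finset.sum_eq_zero fun n _ => ?_
      rw [logLin_actLin]
      refine h0 _ ?_
      have h2 : ((σ : H →+* ℂ_[p]).comp (n : H →+* H)).comp (algebraMap K H) =
          σ'.comp (algebraMap K E) := by
        ext z
        show σ (n (algebraMap K H z)) = σ' (algebraMap K E z)
        rw [← hσ]
        show σ (n (algebraMap K H z)) = σ (algebraMap E H (algebraMap K E z))
        rw [← IsScalarTower.algebraMap_apply K E H, IsScalarTower.algebraMap_apply K E H z,
          n.commutes]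
      rw [h2]
      exact hσ'
  rw [← hy, hy0, map_zero] at hsum
  simp only [hn, Finset.sum_const, Finset.card_univ] at hsum
  have hc : (Fintype.card (H ≃ₐ[E] H) : ℂ_[p]) ≠ 0 := by
    exact_mod_cast Fintype.card_ne_zero
  rw [← Nat.cast_smul_eq_nsmul ℂ_[p]] at hsum
  exact (smul_eq_zero.1 hsum.symm).resolve_left hc

end inflate

end Pool.Agent.H674.SH
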