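import Pool.Agent.H674.SH.All

/-!
# Cyclic extensions of degree `p` with the same Leopoldt defect
-/

set_option autoImplicit false

namespace Pool.Agent.H674.SH

open NumberField IsDedekindDomain Module Pool.Agent.Y18.LC Pool.Agent.Q5.SG Pool.Agent.Q5.SH
open Pool.Agent.Q92.AR (Unramified)
open Pool.Agent.W289.SL (SigmaLeopoldt)
open Pool.Agent.H637R2.Leo (Leopoldt)

theorem placeClosed_univ {p : ℕ} [Fact p.Prime] {K : Type} [Field K] :
    PlaceClosed (Set.univ : Set (K →+* ℂ_[p])) := fun _ _ τ _ => Set.mem_univ τ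

theorem injective_of_ne_one {G M : Type} [Group G] [Group M] {p : ℕ} (hp : p.Prime)
    (hG : Nat.card G = p) (χ : G →* M) (hχ : χ ≠ 1) : Function.Injective χ := by
  rw [← MonoidHom.ker_eq_bot_iff]
  have : Fact (Nat.card G).Prime := ⟨by rw [hG]; exact hp⟩
  rcases Subgroup.eq_bot_or_eq_top_of_prime_card χ.ker with h | h
  · exact h
  · exfalso
    apply hχ
    ext x
    have : x ∈ χ.ker := by rw [h]; exact Subgroup.mem_top x
    rw [MonoidHom.mem_ker.1 this, MonoidHom.one_apply]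

/-- One step. -/
theorem leoStep {p : ℕ} [Fact p.Prime] (hp : p ≠ 2) {K : Type} [Field K] [NumberField K]
    (hK : Unram K p) (B : Set (HeightOneSpectrum (𝓞 K))) (hBf : B.Finite) :
    ∃ T : Finset (HeightOneSpectrum (𝓞 K)), T.Nonempty ∧ (∀ v ∈ T, v ∉ B) ∧
    ∃ (H : Type) (_ : Field H) (_ : NumberField H) (_ : Algebra K H) (_ : IsGalois K H),
      finrank K H = p ∧ (∀ v : HeightOneSpectrum (𝓞 K), Unramified H v ↔ v ∉ T) ∧ Unram H p ∧
      (∀ χ : (H ≃ₐ[K] H) →* ℂ_[p]ˣ, χ ≠ 1 → SigmaLeopoldt p K H Set.univ χ) ∧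
      (Leopoldt K p → Leopoldt H p) := by
  have hpp : p.Prime := Fact.out
  obtain ⟨T, hT1, hT2, H, i1, i2, i3, i4, g, hg, hd, hr, hH, hbad⟩ :=
    mainD hp hK Set.univ placeClosed_univ (Pool.Agent.Q224.SH.bu p K hK) 1 le_rfl (Or.inl rfl) B hBf
  rw [pow_one] at hd
  have hfin : FiniteDimensional K H := Module.Finite.of_restrictScalars_finite ℚ K H
  have hcard : Nat.card (H ≃ₐ[K] H) = p := by rw [IsGalois.card_aut_eq_finrank, hd]
  have hog : orderOf g = p := by
    rw [← hcard]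
    exact orderOf_eq_card_of_forall_mem_zpowers hg
  have htop : TopRel (Set.univ : Set (K →+* ℂ_[p])) g := by
    refine topRel_top g hog fun τ hτ => ?_
    refine b_TR p hp K H hH Set.univ g hg 1 1 1 (by rw [hd, pow_one]) le_rfl le_rfl
      (hbad 1 le_rfl le_rfl) ⊤ ?_ τ hτ
    rw [IntermediateField.finrank_top', hd, pow_one]
  refine ⟨T, hT1, hT2, H, i1, i2, i3, i4, hd, hr, hH, fun χ hχ => ?_, ?_⟩
  · exact b_SL p hp K H Set.univ placeClosed_univ g hog htop χ (injective_of_ne_one hpp hcard χ hχ)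
  · exact Pool.Agent.Q224.SH.leo p hp K H hd hK hH g hog htop

end Pool.Agent.H674.SH
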