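import Pool.Agent.H674.SH.All
import Pool.Agent.H674.SH.Inf

/-!
# Cyclic extensions of degree `p ^ m` with the same Leopoldt defect
-/

set_option autoImplicit false
set_option linter.all false

namespace Pool.Agent.H674.SH

open NumberField IsDedekindDomain Module Pool.Agent.Y18.LC Pool.Agent.Q5.SG Pool.Agent.Q5.SH
open Pool.Agent.Q92.AR (Unramified)
open Pool.Agent.W289.SL (SigmaLeopoldt)
open Pool.Agent.H637R2.Leo (Leopoldt)
open Pool.Agent.Q285.SG (ps s_mul s_nat norm_p pinv_lt)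

/-! ## all places above `p` except one -/

section off

variable {p : ℕ} [Fact p.Prime] {K : Type} [Field K] [NumberField K]

/-- the embeddings which do not belong to the prime `v` -/
def Off (p : ℕ) [Fact p.Prime] (v : HeightOneSpectrum (𝓞 K)) : Set (K →+* ℂ_[p]) :=
  {σ | ¬ ∀ x : 𝓞 K, x ∈ v.asIdeal ↔ ‖σ (x : K)‖ < 1}

theorem off_placeClosed (v : HeightOneSpectrum (𝓞 K)) : PlaceClosed (Off p v) := by
  intro σ hσ τ hτ h
  apply hσ
  intro x
  rw [h x, hτ]

theorem off_exists (v : HeightOneSpectrum (𝓞 K)) (hv : (p : 𝓞 K) ∈ v.asIdeal) :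
    ∃ τ : K →+* ℂ_[p], τ ∉ Off p v := by
  obtain ⟨σ, hσ⟩ := ps p K v hv
  exact ⟨σ, fun h => h hσ⟩

theorem exists_of_off (v : HeightOneSpectrum (𝓞 K)) {σ : K →+* ℂ_[p]} (hσ : σ ∈ Off p v) :
    ∃ x ∈ v.asIdeal, ‖σ ((x : 𝓞 K) : K)‖ = 1 := by
  by_contra hcon
  push Not at hcon
  apply hσ
  have h1 : ∀ x ∈ v.asIdeal, ‖σ ((x : 𝓞 K) : K)‖ < 1 := fun x hx =>
    lt_of_le_of_ne (norm_int_le σ x) (hcon x hx)
  intro x
  refine ⟨h1 x, fun hx => ?_⟩
  by_contra hxv
  obtain ⟨y, i, hi, hyi⟩ := (Ideal.IsMaximal.exists_inv v.isMaximal hxv)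
  have h2 : σ ((1 : 𝓞 K) : K) = σ (y : K) * σ (x : K) + σ (i : K) := by
    rw [← map_mul, ← map_add]
    congr 1
    rw [← hyi]
    push_cast
    rfl
  have h3 : ‖σ ((1 : 𝓞 K) : K)‖ < 1 := by
    rw [h2]
    refine lt_of_le_of_lt (IsUltrametricDist.norm_add_le_max _ _) (max_lt ?_ (h1 i hi))
    rw [norm_mul]
    calc ‖σ (y : K)‖ * ‖σ (x : K)‖ ≤ 1 * ‖σ (x : K)‖ :=
          mul_le_mul_of_nonneg_right (norm_int_le σ y) (norm_nonneg _)
      _ < 1 := by rw [one_mul]; exact hx
  have h4 : σ ((1 : 𝓞 K) : K) = 1 := by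
    have h5 : ((1 : 𝓞 K) : K) = 1 := map_one (algebraMap (𝓞 K) K)
    rw [h5, map_one]
  rw [h4, norm_one] at h3
  exact lt_irrefl _ h3

theorem off_big (hun : Unram K p) (v : HeightOneSpectrum (𝓞 K)) (hv : (p : 𝓞 K) ∈ v.asIdeal)
    (hf : Ideal.absNorm v.asIdeal ≤ p ^ InfinitePlace.nrComplexPlaces K) : Big (Off p v) := by
  have hp0 : p ≠ 0 := (Fact.out : p.Prime).ne_zero
  have hpK : (p : 𝓞 K) ≠ 0 := by exact_mod_cast hp0
  have hdvd : v.asIdeal ∣ Ideal.span {(p : 𝓞 K)} := by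
    rw [Ideal.dvd_iff_le, Ideal.span_singleton_le_iff_mem]
    exact hv
  obtain ⟨I, hI⟩ := hdvd
  refine ⟨I, ?_, ?_⟩
  · intro a
    constructor
    · intro ha σ hσ
      obtain ⟨x, hx, hx1⟩ := exists_of_off v hσ
      have h1 : x * a ∈ Ideal.span {(p : 𝓞 K)} := by
        rw [hI]
        exact Ideal.mul_mem_mul hx ha
      obtain ⟨b, hb⟩ := Ideal.mem_span_singleton'.1 h1
      have h2 : ‖σ ((x * a : 𝓞 K) : K)‖ < 1 := by
        rw [← hb, s_mul, norm_mul, s_nat, norm_p]
        calc ‖σ (b : K)‖ * (p : ℝ)⁻¹ ≤ 1 * (p : ℝ)⁻¹ :=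
              mul_le_mul_of_nonneg_right (norm_int_le σ b) (by positivity)
          _ < 1 := by rw [one_mul]; exact pinv_lt
      rw [s_mul, norm_mul, hx1, one_mul] at h2
      exact h2
    · intro h
      have hrad : (Ideal.span {(p : 𝓞 K)}).radical = Ideal.span {(p : 𝓞 K)} := hun.radical
      have h1 : ∀ y ∈ v.asIdeal, y * a ∈ Ideal.span {(p : 𝓞 K)} := by
        intro y hy
        rw [← hrad, Ideal.radical_eq_sInf, Ideal.mem_sInf]
        rintro J ⟨hJ1, hJ2⟩
        have hpJ : (p : 𝓞 K) ∈ J := hJ1 (Ideal.mem_span_singleton_self _)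
        have hJ0 : J ≠ ⊥ := by
          intro h0
          rw [h0, Submodule.mem_bot] at hpJ
          exact hpK hpJ
        obtain ⟨σ, hσ⟩ := ps p K ⟨J, hJ2, hJ0⟩ hpJ
        by_cases hσv : σ ∈ Off p v
        · exact Ideal.mul_mem_left _ _ ((hσ a).2 (h σ hσv))
        · have h2 : ∀ x : 𝓞 K, x ∈ v.asIdeal ↔ ‖σ (x : K)‖ < 1 := not_not.1 hσv
          exact Ideal.mul_mem_right _ _ ((hσ y).2 ((h2 y).1 hy))
      have h3 : v.asIdeal * Ideal.span {a} ≤ Ideal.span {(p : 𝓞 K)} := by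
        rw [Ideal.mul_le]
        intro y hy z hz
        obtain ⟨c, rfl⟩ := Ideal.mem_span_singleton'.1 hz
        have h4 : y * (c * a) = c * (y * a) := by ring
        rw [h4]
        exact Ideal.mul_mem_left _ _ (h1 y hy)
      rw [hI, ← Ideal.dvd_iff_le, mul_dvd_mul_iff_left v.ne_bot, Ideal.dvd_iff_le,
        Ideal.span_singleton_le_iff_mem] at h3
      exact h3
  · have h1 : Ideal.absNorm (Ideal.span {(p : 𝓞 K)}) = p ^ finrank ℚ K := by
      rw [Ideal.absNorm_span_natCast, RingOfIntegers.rank]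
    rw [hI, map_mul] at h1
    have h2 := InfinitePlace.card_add_two_mul_card_eq_rank K
    have h3 := InfinitePlace.card_eq_nrRealPlaces_add_nrComplexPlaces (K := K)
    have h4 : 0 < Fintype.card (InfinitePlace K) := Fintype.card_pos
    have h5 : finrank ℚ K = (NumberField.Units.rank K + 1) + InfinitePlace.nrComplexPlaces K := by
      unfold NumberField.Units.rank
      omega
    rw [h5, pow_add] at h1
    have hpos : 0 < p ^ InfinitePlace.nrComplexPlaces K := pow_pos (Fact.out : p.Prime).pos _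
    by_contra hcon
    push Not at hcon
    have h6 : Ideal.absNorm v.asIdeal * Ideal.absNorm I ≤
        p ^ InfinitePlace.nrComplexPlaces K * Ideal.absNorm I := Nat.mul_le_mul_right _ hf
    have h7 : p ^ InfinitePlace.nrComplexPlaces K * Ideal.absNorm I <
        p ^ InfinitePlace.nrComplexPlaces K * p ^ (NumberField.Units.rank K + 1) :=
      Nat.mul_lt_mul_of_pos_left hcon hpos
    rw [mul_comm (p ^ InfinitePlace.nrComplexPlaces K) (p ^ (NumberField.Units.rank K + 1))] at h7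
    omega

end off

/-! ## Leopoldt's conjecture for the layers -/

section leo

variable {p : ℕ} [Fact p.Prime]

/-- Leopoldt's conjecture is invariant under isomorphisms. -/
theorem leopoldt_equiv {K K' : Type} [Field K] [NumberField K] [Field K'] [NumberField K']
    (e : K ≃+* K') (h : Leopoldt K p) : Leopoldt K' p := by
  intro n ε h1 h2 a m ha hm
  let f : 𝓞 K' ≃+* 𝓞 K := RingOfIntegers.mapRingEquiv e.symm
  refine h n (fun i => Units.map (f : 𝓞 K' →* 𝓞 K) (ε i)) ?_ ?_ a m ha ?_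
  · intro i
    obtain ⟨k, hk⟩ := Ideal.mem_radical_iff.1 (h1 i)
    refine Ideal.mem_radical_iff.2 ⟨k, ?_⟩
    rw [Ideal.mem_span_singleton] at hk ⊢
    have h3 := map_dvd f hk
    rw [map_natCast, map_pow, map_sub, map_one] at h3
    exact h3
  · intro c hc
    apply h2 c
    have h3 : Function.Injective (Units.map (f : 𝓞 K' →* 𝓞 K)) := Units.map_injective f.injective
    apply h3
    rw [map_prod, map_one, ← hc]
    refine Finset.prod_congr rfl fun i _ => ?_
    rw [map_zpow]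
  · intro N
    filter_upwards [hm N] with k hk
    have h3 := map_dvd f hk
    rw [map_pow, map_natCast, map_sub, map_one] at h3
    have h4 : (((∏ i, Units.map (f : 𝓞 K' →* 𝓞 K) (ε i) ^ m k i : (𝓞 K)ˣ)) : 𝓞 K) =
        f (((∏ i, ε i ^ m k i : (𝓞 K')ˣ)) : 𝓞 K') := by
      have h5 : (∏ i, Units.map (f : 𝓞 K' →* 𝓞 K) (ε i) ^ m k i : (𝓞 K)ˣ) =
          Units.map (f : 𝓞 K' →* 𝓞 K) (∏ i, ε i ^ m k i : (𝓞 K')ˣ) := by
        rw [map_prod]
        refine Finset.prod_congr rfl fun i _ => ?_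
        rw [map_zpow]
      rw [h5]
      rfl
    rw [h4]
    exact h3

/-- unramified in an extension implies unramified -/
theorem unram_down {E H : Type} [Field E] [NumberField E] [Field H] [NumberField H] [Algebra E H]
    (h : Unram H p) : Unram E p := by
  have hp0 : (p : 𝓞 E) ≠ 0 := by exact_mod_cast (Fact.out : p.Prime).ne_zero
  have hpE : (p : E) ≠ 0 := by exact_mod_cast (Fact.out : p.Prime).ne_zero
  intro x hx
  obtain ⟨n, hn⟩ := Ideal.mem_radical_iff.1 hx
  rw [Ideal.mem_span_singleton] at hn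
  have h1 := map_dvd (algebraMap (𝓞 E) (𝓞 H)) hn
  rw [map_natCast, map_pow] at h1
  have h2 : algebraMap (𝓞 E) (𝓞 H) x ∈ Ideal.span {(p : 𝓞 H)} :=
    h (Ideal.mem_radical_iff.2 ⟨n, Ideal.mem_span_singleton.2 h1⟩)
  obtain ⟨y, hy⟩ := Ideal.mem_span_singleton'.1 h2
  have h3 : algebraMap E H ((x : E) / (p : E)) = (y : H) := by
    have h4 : ((algebraMap (𝓞 E) (𝓞 H) x : 𝓞 H) : H) = algebraMap E H (x : E) := rfl
    rw [map_div₀, map_natCast, ← h4, ← hy]
    have hpH : (p : H) ≠ 0 := by exact_mod_cast (Fact.out : p.Prime).ne_zero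
    have h7 : ((y * (p : 𝓞 H) : 𝓞 H) : H) = (y : H) * (p : H) := by
      have h8 := map_mul (algebraMap (𝓞 H) H) y (p : 𝓞 H)
      rw [map_natCast] at h8
      exact h8
    rw [h7]
    exact mul_div_cancel_right₀ _ hpH
  have h5 : IsIntegral ℤ ((x : E) / (p : E)) := by
    have h6 : IsIntegral ℤ (algebraMap E H ((x : E) / (p : E))) := by
      rw [h3]
      exact y.isIntegral_coe
    exact (isIntegral_algebraMap_iff (algebraMap E H).injective).1 h6
  obtain ⟨z, hz⟩ : ∃ z : 𝓞 E, (z : E) = (x : E) / (p : E) := ⟨⟨(x : E) / (p : E), h5⟩, rfl⟩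
  rw [Ideal.mem_span_singleton']
  refine ⟨z, ?_⟩
  apply RingOfIntegers.ext
  have h8 := map_mul (algebraMap (𝓞 E) E) z (p : 𝓞 E)
  rw [map_natCast] at h8
  refine h8.trans ?_
  have h9 : algebraMap (𝓞 E) E z = (x : E) / (p : E) := hz
  rw [h9]
  exact div_mul_cancel₀ _ hpE

/-- change of the base field in `TopRel` -/
theorem topRel_base {K E' E : Type} [Field K] [NumberField K] [Field E'] [NumberField E']
    [Field E] [NumberField E] [Algebra K E'] [Algebra E' E] [Algebra K E] [IsScalarTower K E' E]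
    (S : Set (K →+* ℂ_[p])) (τ : E ≃ₐ[E'] E) (h : TopRel S (τ.restrictScalars K)) :
    TopRel (Set.univ : Set (E' →+* ℂ_[p])) τ := by
  intro s
  obtain ⟨M, hM⟩ := h s
  refine ⟨M, fun u hu hprod => hM u ⟨hu.1, fun σ _ => hu.2 σ (Set.mem_univ _)⟩ ?_⟩
  rw [← hprod]
  refine Finset.prod_congr rfl fun i _ => ?_
  apply Units.ext
  have h1 : ∀ (i : ℕ) (x : E), (τ.restrictScalars K ^ i : E ≃ₐ[K] E) x = (τ ^ i : E ≃ₐ[E'] E) x := by
    intro i
    induction i with
    | zero => intro x; rfl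
    | succ k ih =>
      intro x
      rw [pow_succ', pow_succ', AlgEquiv.mul_apply, AlgEquiv.mul_apply, ih]
      rfl
  exact h1 i _

theorem leo_layers (hp : p ≠ 2) {K H : Type} [Field K] [NumberField K] [Field H] [NumberField H]
    [Algebra K H] [IsGalois K H] (hH : Unram H p) (S : Set (K →+* ℂ_[p])) (g : H ≃ₐ[K] H)
    (hg : ∀ h : H ≃ₐ[K] H, h ∈ Subgroup.zpowers g) (m : ℕ) (hd : finrank K H = p ^ m)
    (hbad : ∀ j : ℕ, 1 ≤ j → j ≤ m → ¬ Bad S g 1 j) (hK : Leopoldt K p) :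
    ∀ j ≤ m, ∀ E : IntermediateField K H, finrank K E = p ^ j → Leopoldt E p := by
  have hpp : p.Prime := Fact.out
  have hfin : FiniteDimensional K H := Module.Finite.of_restrictScalars_finite ℚ K H
  intro j
  induction j with
  | zero =>
    intro _ E hE
    rw [pow_zero] at hE
    have h1 : E = ⊥ := IntermediateField.finrank_eq_one_iff.1 hE
    subst h1
    exact leopoldt_equiv (IntermediateField.botEquiv K H).symm.toRingEquiv hK
  | succ j ih =>
    intro hj E hE
    have hGE : IsGalois K E := isGalois_layer g hg E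
    obtain ⟨t, ht⟩ := exists_order_p g hg E (by omega : 1 ≤ j + 1) hE
    let N : IntermediateField K E := IntermediateField.fixedField (Subgroup.zpowers t)
    have hN : finrank N E = p := by
      rw [IntermediateField.finrank_fixedField_eq_card, Nat.card_zpowers, ht]
    have hKN : finrank K N = p ^ j := by
      have h1 := finrank_mul_finrank K N E
      rw [hN, hE, pow_succ] at h1
      exact Nat.eq_of_mul_eq_mul_right hpp.pos h1
    let E' : IntermediateField K H := IntermediateField.lift N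
    have hle : E' ≤ E := IntermediateField.lift_le N
    have hE' : finrank K E' = p ^ j := by
      rw [← hKN]
      exact (LinearEquiv.finrank_eq (IntermediateField.liftAlgEquiv N).toLinearEquiv).symm
    letI : Algebra E' E := (IntermediateField.inclusion hle).toAlgebra
    have hst : IsScalarTower K E' E := IsScalarTower.of_algebraMap_eq fun x => rfl
    have hGE' : IsGalois E' E := IsGalois.tower_top_of_isGalois K E' E
    have hfE' : finrank E' E = p := by
      have h1 := finrank_mul_finrank K E' E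
      rw [hE', hE, pow_succ] at h1
      exact Nat.eq_of_mul_eq_mul_left (pow_pos hpp.pos j) h1
    have hfd : FiniteDimensional E' E := Module.Finite.of_restrictScalars_finite ℚ E' E
    have hcard : p ∣ Nat.card (E ≃ₐ[E'] E) := by
      rw [IsGalois.card_aut_eq_finrank, hfE']
    obtain ⟨τ, hτ⟩ := exists_prime_orderOf_dvd_card' p hcard
    have hτK : orderOf (τ.restrictScalars K : E ≃ₐ[K] E) = p := by
      rw [← hτ]
      exact orderOf_injective (AlgEquiv.restrictScalarsHom K : (E ≃ₐ[E'] E) →* (E ≃ₐ[K] E))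
        (AlgEquiv.restrictScalarsHom_injective K) τ
    have htop : TopRel S (τ.restrictScalars K : E ≃ₐ[K] E) :=
      b_TR p hp K H hH S g hg m 1 (j + 1) hd (by omega) hj (hbad (j + 1) (by omega) hj) E hE _ hτK
    have hUE : Unram E p := unram_down hH
    have hUE' : Unram E' p := unram_down hH
    exact Pool.Agent.Q224.SH.leo p hp E' E hfE' hUE' hUE τ hτ (topRel_base S τ htop)
      (ih (by omega) E' hE')

end leo

/-- Cyclic extensions of degree `p ^ m`. -/
theorem powStep {p : ℕ} [Fact p.Prime] (hp : p ≠ 2) {K : Type} [Field K] [NumberField K]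
    (hK : Unram K p) (m : ℕ) (hm : 1 ≤ m)
    (hv : m = 1 ∨ ∃ v : HeightOneSpectrum (𝓞 K), (p : 𝓞 K) ∈ v.asIdeal ∧
      Ideal.absNorm v.asIdeal ≤ p ^ InfinitePlace.nrComplexPlaces K)
    (B : Set (HeightOneSpectrum (𝓞 K))) (hBf : B.Finite) :
    ∃ T : Finset (HeightOneSpectrum (𝓞 K)), T.Nonempty ∧ (∀ v ∈ T, v ∉ B) ∧
    ∃ (H : Type) (_ : Field H) (_ : NumberField H) (_ : Algebra K H) (_ : IsGalois K H)
      (_ : IsCyclic (H ≃ₐ[K] H)), finrank K H = p ^ m ∧
      (∀ v : HeightOneSpectrum (𝓞 K), Unramified H v ↔ v ∉ T) ∧ Unram H p ∧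
      (∀ χ : (H ≃ₐ[K] H) →* ℂ_[p]ˣ, χ ≠ 1 → SigmaLeopoldt p K H Set.univ χ) ∧
      (Leopoldt K p → Leopoldt H p) := by
  have hpp : p.Prime := Fact.out
  obtain ⟨S, hS, hB, hmS⟩ : ∃ S : Set (K →+* ℂ_[p]), PlaceClosed S ∧ Big S ∧
      (m = 1 ∨ ∃ τ : K →+* ℂ_[p], τ ∉ S) := by
    rcases hv with hv | ⟨v, hv1, hv2⟩
    · exact ⟨Set.univ, fun _ _ τ _ => Set.mem_univ τ, Pool.Agent.Q224.SH.bu p K hK, Or.inl hv⟩
    · exact ⟨Off p v, off_placeClosed v, off_big hK v hv1 hv2, Or.inr (off_exists v hv1)⟩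
  obtain ⟨T, hT1, hT2, H, i1, i2, i3, i4, g, hg, hd, hr, hH, hbad⟩ :=
    mainD hp hK S hS hB m hm hmS B hBf
  have hcyc : IsCyclic (H ≃ₐ[K] H) := ⟨g, hg⟩
  have hfin : FiniteDimensional K H := Module.Finite.of_restrictScalars_finite ℚ K H
  have hcomm : ∀ a b : H ≃ₐ[K] H, a * b = b * a := by
    intro a b
    obtain ⟨i, rfl⟩ := Subgroup.mem_zpowers_iff.1 (hg a)
    obtain ⟨j, rfl⟩ := Subgroup.mem_zpowers_iff.1 (hg b)
    rw [← zpow_add, ← zpow_add, add_comm]
  refine ⟨T, hT1, hT2, H, i1, i2, i3, i4, hcyc, hd, hr, hH, fun χ hχ => ?_, fun hL => ?_⟩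
  · have h1 : SigmaLeopoldt p K H S χ := by
      refine inflate hcomm S (fun E ψ hψ1 hψ => ?_) χ hχ
      have h1 : finrank K E ∣ p ^ m := by
        rw [← hd]
        exact ⟨finrank E H, (finrank_mul_finrank K E H).symm⟩
      obtain ⟨j, hj, hE⟩ := (Nat.dvd_prime_pow hpp).1 h1
      have hj1 : 1 ≤ j := by
        by_contra hcon
        have hj0 : j = 0 := by omega
        rw [hj0, pow_zero] at hE
        apply hψ1
        ext a
        have h2 : a = 1 := by
          have h3 : E = ⊥ := IntermediateField.finrank_eq_one_iff.1 hE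
          subst h3
          ext x
          obtain ⟨y, hy⟩ := IntermediateField.mem_bot.1 x.2
          have h4 : x = algebraMap K (⊥ : IntermediateField K H) y := Subtype.ext hy.symm
          rw [h4, a.commutes, AlgEquiv.one_apply]
        rw [h2, map_one, map_one]
      exact layerHolds_of_not_bad hp hH S hS g hg m 1 hd j hj1 hj (hbad j hj1 hj) E hE ψ hψ
    intro L hL' x hx h0
    exact h1 L hL' x hx fun σ _ => h0 σ (Set.mem_univ _)
  · refine leopoldt_equiv (IntermediateField.topEquiv : (⊤ : IntermediateField K H) ≃ₐ[K] H).toRingEquiv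
      (leo_layers hp hH S g hg m hd hbad hL m le_rfl ⊤ ?_)
    rw [IntermediateField.finrank_top', hd]

end Pool.Agent.H674.SH
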